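import Pool.Agent.MP_334179_al.NS.Defs

/-!
Basic facts on convolution, evaluation in the lattice and representatives (same proofs as in the
hand-in AnosovNotFA, repeated for the copied definitions).
-/

namespace Pool.Agent.MP_334179_al.NS

open Polynomial

/-! ### Convolution -/

lemma conv_getElem? {α : Type} (u v : List α) (k : ℕ) :
    (conv u v)[k]? = if k < max u.length v.length then some (u[k]?, v[k]?) else none := by
  unfold conv
  split_ifs with h
  · rw [List.getElem?_map, List.getElem?_range h]; rfl
  · rw [List.getElem?_eq_none]; simpa using h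

lemma conv_length {α : Type} (u v : List α) : (conv u v).length = max u.length v.length := by
  simp [conv]

lemma conv_inj {α : Type} {u v u' v' : List α} (h : conv u v = conv u' v') : u = u' ∧ v = v' := by
  have hl : max u.length v.length = max u'.length v'.length := by
    rw [← conv_length, h, conv_length]
  have hk : ∀ k : ℕ, u[k]? = u'[k]? ∧ v[k]? = v'[k]? := by
    intro k
    have e := conv_getElem? u v k
    rw [h, conv_getElem?, ← hl] at e
    by_cases hlt : k < max u.length v.length
    · simp only [hlt, if_true, Option.some.injEq, Prod.mk.injEq] at e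
      exact ⟨e.1.symm, e.2.symm⟩
    · have h2 := hlt
      rw [hl] at h2
      rw [List.getElem?_eq_none (by omega), List.getElem?_eq_none (by omega),
        List.getElem?_eq_none (by omega), List.getElem?_eq_none (by omega)]
      exact ⟨rfl, rfl⟩
  exact ⟨List.ext_getElem? fun k => (hk k).1, List.ext_getElem? fun k => (hk k).2⟩

lemma conv_append {α : Type} {u v : List α} (h : u.length = v.length) (u' v' : List α) :
    conv u v ++ conv u' v' = conv (u ++ u') (v ++ v') := by
  apply List.ext_getElem?
  intro k
  rw [List.getElem?_append, conv_length, conv_getElem?, conv_getElem?, conv_getElem?,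
    List.getElem?_append, List.getElem?_append, List.length_append, List.length_append, ← h,
    max_self]
  by_cases h1 : k < u.length
  · have : k < max (u.length + u'.length) (u.length + v'.length) := by omega
    simp only [h1, this, if_true]
  · by_cases h2 : k - u.length < max u'.length v'.length
    · have : k < max (u.length + u'.length) (u.length + v'.length) := by omega
      simp only [h1, h2, this, if_true, if_false]
    · have : ¬ k < max (u.length + u'.length) (u.length + v'.length) := by omega
      simp only [h1, h2, this, if_false]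

/-! ### Evaluation in the lattice -/

/-- multiplication by `x` in the basis `1, x` -/
def mx (p q : ℤ) (c : ℤ × ℤ) : ℤ × ℤ := (q * c.2, c.1 - p * c.2)

/-- value of a list of integers -/
def ev (p q : ℤ) : List ℤ → ℤ × ℤ
  | [] => 0
  | a :: w => (a, 0) + mx p q (ev p q w)

/-- value of a string -/
def evd (p q : ℤ) (w : List (Digit q)) : ℤ × ℤ := ev p q (w.map Subtype.val)

lemma mx_add (p q : ℤ) (c d : ℤ × ℤ) : mx p q (c + d) = mx p q c + mx p q d := by
  simp only [mx, Prod.fst_add, Prod.snd_add, Prod.mk_add_mk, Prod.mk.injEq]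
  constructor <;> ring

lemma ev_append (p q : ℤ) (u w : List ℤ) :
    ev p q (u ++ w) = ev p q u + (mx p q)^[u.length] (ev p q w) := by
  induction u with
  | nil => simp [ev]
  | cons a u ih =>
    simp only [List.cons_append, ev, ih, mx_add, List.length_cons, Function.iterate_succ_apply']
    rw [add_assoc]

lemma evd_append (p q : ℤ) (u w : List (Digit q)) :
    evd p q (u ++ w) = evd p q u + (mx p q)^[u.length] (evd p q w) := by
  simp [evd, ev_append]

lemma iter_form (p q : ℤ) (hpq : IsCoprime p q) (j : ℕ) :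
    ∃ a b : ℤ, (∀ c : ℤ × ℤ, (mx p q)^[j + 1] c =
      (a * c.1 + b * q * c.2, b * c.1 + (a - p * b) * c.2)) ∧ q ∣ a ∧ IsCoprime b q := by
  induction j with
  | zero =>
    refine ⟨0, 1, fun c => ?_, dvd_zero _, isCoprime_one_left⟩
    simp only [zero_add, Function.iterate_one, mx, Prod.mk.injEq]
    constructor <;> ring
  | succ j ih =>
    obtain ⟨a, b, h, ⟨a', rfl⟩, hb⟩ := ih
    refine ⟨q * b, q * a' - p * b, fun c => ?_, dvd_mul_right _ _, ?_⟩
    · rw [Function.iterate_succ_apply', h]
      simp only [mx, Prod.mk.injEq]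
      constructor <;> ring
    · have h1 : IsCoprime (-(p * b)) q := (hpq.mul_left hb).neg_left
      have := h1.add_mul_left_left a'
      rwa [show -(p * b) + q * a' = q * a' - p * b by ring] at this

lemma poly_cons {q : ℤ} (a : Digit q) (w : List (Digit q)) :
    poly (a :: w) = C a.val + X * poly w := by
  simp only [poly, List.length_cons, Fin.sum_univ_succ, Finset.mul_sum]
  congr 1
  · simp
  · refine Finset.sum_congr rfl fun i _ => ?_
    simp only [List.get_cons_succ', Fin.val_succ]
    ring

lemma dvd_poly_sub (p q : ℤ) (w : List (Digit q)) :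
    tpoly p q ∣ poly w - (C (evd p q w).1 + C (evd p q w).2 * X) := by
  induction w with
  | nil => simp [poly, evd, ev]
  | cons a w ih =>
    obtain ⟨g, hg⟩ := ih
    refine ⟨X * g + C (evd p q w).2, ?_⟩
    rw [poly_cons, sub_eq_iff_eq_add.1 hg]
    simp only [evd, List.map_cons, ev, mx, Prod.fst_add, Prod.snd_add, tpoly, map_add, map_mul,
      map_sub, zero_add]
    ring

lemma tpoly_monic (p q : ℤ) : (tpoly p q).Monic := by
  unfold tpoly
  monicity!

lemma tpoly_degree (p q : ℤ) : (tpoly p q).degree = 2 := by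
  unfold tpoly
  compute_degree!

lemma psi_eq (p q : ℤ) (w : List (Digit q)) :
    psi p q w = ![(evd p q w).1, (evd p q w).2] := by
  have h1 := modByMonic_eq_of_dvd_sub (tpoly_monic p q) (dvd_poly_sub p q w)
  have h2 : (C (evd p q w).1 + C (evd p q w).2 * X) %ₘ tpoly p q
      = C (evd p q w).1 + C (evd p q w).2 * X := by
    rw [modByMonic_eq_self_iff (tpoly_monic p q), tpoly_degree]
    compute_degree!
  funext i
  unfold psi
  rw [h1, h2]
  fin_cases i <;> simp [-eq_intCast, coeff_X, coeff_C]

/-! ### Every lattice point is represented -/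

lemma pad2 (p q : ℤ) (T : List ℤ) : ∃ b c T', ev p q T = ev p q (b :: c :: T') ∧
    (T.map Int.natAbs).sum = ((b :: c :: T').map Int.natAbs).sum := by
  match T with
  | [] => exact ⟨0, 0, [], by simp [ev, mx, Prod.ext_iff], by simp⟩
  | [b] => exact ⟨b, 0, [], by simp [ev, mx], by simp⟩
  | b :: c :: T' => exact ⟨b, c, T', rfl, rfl⟩

lemma reduce_step {p q : ℤ} (h : 1 + |p| < |q|) (L : List ℤ) (hL : ∃ a ∈ L, |q| ≤ |a|) :
    ∃ L' : List ℤ, ev p q L' = ev p q L ∧ (L'.map Int.natAbs).sum < (L.map Int.natAbs).sum := by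
  induction L with
  | nil => simp at hL
  | cons a T ih =>
    by_cases ha : |q| ≤ |a|
    · obtain ⟨b, c, T', e1, e2⟩ := pad2 p q T
      obtain ⟨ε, hε, hε'⟩ : ∃ ε : ℤ, (ε = 1 ∨ ε = -1) ∧ |a - ε * q| = |a| - |q| := by
        by_cases h1 : 0 ≤ a <;> by_cases h2 : 0 ≤ q
        · refine ⟨1, Or.inl rfl, ?_⟩
          rw [abs_of_nonneg h1, abs_of_nonneg h2] at *
          rw [one_mul, abs_of_nonneg (by omega)]
        · refine ⟨-1, Or.inr rfl, ?_⟩
          rw [abs_of_nonneg h1, abs_of_neg (not_le.1 h2)] at *
          rw [abs_of_nonneg (by omega)]; ring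
        · refine ⟨-1, Or.inr rfl, ?_⟩
          rw [abs_of_neg (not_le.1 h1), abs_of_nonneg h2] at *
          rw [abs_of_nonpos (by omega)]; ring
        · refine ⟨1, Or.inl rfl, ?_⟩
          rw [abs_of_neg (not_le.1 h1), abs_of_neg (not_le.1 h2)] at *
          rw [abs_of_nonpos (by omega)]; ring
      refine ⟨(a - ε * q) :: (b + ε * p) :: (c + ε) :: T', ?_, ?_⟩
      · simp only [ev, e1, mx, Prod.mk_add_mk, Prod.mk.injEq]
        constructor <;> ring
      · simp only [List.map_cons, List.sum_cons, e2]
        rw [Int.abs_eq_natAbs, Int.abs_eq_natAbs, Int.abs_eq_natAbs] at hε'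
        rw [Int.abs_eq_natAbs, Int.abs_eq_natAbs] at h
        rcases hε with rfl | rfl <;> omega
    · obtain ⟨x, hx, hx'⟩ := hL
      rcases List.mem_cons.1 hx with rfl | hx
      · exact absurd hx' ha
      · obtain ⟨L', e1, e2⟩ := ih ⟨x, hx, hx'⟩
        exact ⟨a :: L', by simp only [ev, e1], by simpa using e2⟩

lemma exists_digits {p q : ℤ} (h : 1 + |p| < |q|) (L : List ℤ) :
    ∃ w : List (Digit q), evd p q w = ev p q L := by
  induction hn : (L.map Int.natAbs).sum using Nat.strong_induction_on generalizing L with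
  | _ n ih =>
    by_cases hL : ∃ a ∈ L, |q| ≤ |a|
    · obtain ⟨L', e1, e2⟩ := reduce_step h L hL
      obtain ⟨w, hw⟩ := ih _ (hn ▸ e2) L' rfl
      exact ⟨w, hw.trans e1⟩
    · have hL' : ∀ a ∈ L, a ∈ Finset.Icc (-(|q| - 1)) (|q| - 1) := by
        intro a ha
        have : |a| < |q| := not_le.1 fun h' => hL ⟨a, ha, h'⟩
        rw [Finset.mem_Icc, ← abs_le]
        omega
      lift L to List (Digit q) using hL'
      exact ⟨L, rfl⟩

lemma exists_dom {p q : ℤ} (h : 1 + |p| < |q|) (c : ℤ × ℤ) :
    ∃ w ∈ Dom p q, evd p q w = c := by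
  obtain ⟨w, hw⟩ := exists_digits h [c.1, c.2]
  have hc : ev p q [c.1, c.2] = c := by simp [ev, mx]
  have wf : WellFounded (List.Shortlex (· < · : Digit q → Digit q → Prop)) :=
    List.Shortlex.wf wellFounded_lt
  obtain ⟨u, hu, hmin⟩ := wf.has_min {u | tpoly p q ∣ poly u - poly w} ⟨w, by simp⟩
  refine ⟨u, ?_, ?_⟩
  · rintro ⟨u', h1, h2⟩
    refine hmin u' ?_ h1
    have := dvd_add h2 hu
    simpa using this
  · have e : psi p q u = psi p q w := by
      funext i
      unfold psi
      rw [modByMonic_eq_of_dvd_sub (tpoly_monic p q) hu]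
    rw [psi_eq, psi_eq, hw, hc] at e
    have e0 := congrFun e 0
    have e1 := congrFun e 1
    simp only [Matrix.cons_val_zero, Matrix.cons_val_one] at e0 e1
    exact Prod.ext e0 e1

/-! ### The main argument -/

lemma finite_line {α β γ : ℤ} (h : α ≠ 0 ∨ β ≠ 0) : {n : ℤ | α * n + β * n ^ 2 = γ}.Finite := by
  have hne : (C β * X ^ 2 + C α * X - C γ : ℤ[X]) ≠ 0 := by
    intro h0
    have h1 := congrArg (fun f => coeff f 1) h0
    have h2 := congrArg (fun f => coeff f 2) h0
    simp [-eq_intCast, coeff_X, coeff_C] at h1 h2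
    tauto
  refine (Polynomial.finite_setOfPred_isRoot hne).subset fun n hn => ?_
  simp only [Set.mem_ofPred_eq, IsRoot.def, eval_sub, eval_add, eval_mul, eval_C, eval_pow,
    eval_X] at hn ⊢
  linarith


end Pool.Agent.MP_334179_al.NS
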