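import Mathlib

/-!
Nies-Semukhin presentations of the rank two lattice: the definitions of the problem file.
-/

namespace Pool.Agent.MP_334179_al.NS

open Polynomial

/-- The index set: `1 + |p| < |q|`, `gcd (p, q) = 1`, and `p ^ 2 + 4 q` is one of `-4, -3, 1, 4`
or a positive non-square. -/
def InP (p q : ℤ) : Prop :=
  1 + |p| < |q| ∧ Int.gcd p q = 1 ∧
    (p ^ 2 + 4 * q = -4 ∨ p ^ 2 + 4 * q = -3 ∨ p ^ 2 + 4 * q = 1 ∨ p ^ 2 + 4 * q = 4 ∨
      (0 < p ^ 2 + 4 * q ∧ ¬ IsSquare (p ^ 2 + 4 * q)))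

/-- The alphabet `{-(|q| - 1), …, |q| - 1}` with its natural order. -/
abbrev Digit (q : ℤ) : Type := {a : ℤ // a ∈ Finset.Icc (-(|q| - 1)) (|q| - 1)}

/-- The polynomial `t = x ^ 2 + p x - q`. -/
noncomputable def tpoly (p q : ℤ) : ℤ[X] := X ^ 2 + C p * X - C q

/-- The polynomial `∑ a_i x ^ i` of a string `a_0 a_1 ⋯ a_k`. -/
noncomputable def poly {q : ℤ} (w : List (Digit q)) : ℤ[X] :=
  ∑ i : Fin w.length, C (w.get i).val * X ^ (i : ℕ)

/-- The domain: strings with no length-lexicographically smaller equivalent string. -/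
def Dom (p q : ℤ) : Set (List (Digit q)) :=
  {w | ¬ ∃ u : List (Digit q), List.Shortlex (· < ·) u w ∧ tpoly p q ∣ poly u - poly w}

/-- The presentation map: the coefficients `(c_0, c_1)` of the remainder modulo `t`. -/
noncomputable def psi (p q : ℤ) (w : List (Digit q)) : Fin 2 → ℤ :=
  fun i => (poly w %ₘ tpoly p q).coeff i

/-- Convolution of two strings, `none` being the padding symbol. -/
def conv {α : Type} (u v : List α) : List (Option α × Option α) :=
  (List.range (max u.length v.length)).map fun k => (u[k]?, v[k]?)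

/-- `A` is FA-recognizable with respect to the presentation for `(p, q)`. -/
def FARec (p q : ℤ) (A : Matrix (Fin 2) (Fin 2) ℤ) : Prop :=
  Language.IsRegular
    {s | ∃ u ∈ Dom p q, ∃ v ∈ Dom p q, psi p q v = A.mulVec (psi p q u) ∧ s = conv u v}


end Pool.Agent.MP_334179_al.NS
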