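import Pool.Agent.MP_334179_al.NS.Pos

/-!
The graph of an integer matrix in a Nies-Semukhin presentation: regular when the matrix commutes
with multiplication by `x`, and, for nonzero determinant, only then.
-/

namespace Pool.Agent.MP_334179_al.NS

open Polynomial

/-- the linear map with rows `(a, b)` and `(c, d)` -/
def app (a b c d : ℤ) (z : ℤ × ℤ) : ℤ × ℤ := (a * z.1 + b * z.2, c * z.1 + d * z.2)

/-- the language of the graph of the matrix with rows `(a, b)` and `(c, d)` -/
def lang (p q a b c d : ℤ) : Language (Option (Digit q) × Option (Digit q)) :=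
  {s | ∃ u ∈ Dom p q, ∃ v ∈ Dom p q, evd p q v = app a b c d (evd p q u) ∧ s = conv u v}

lemma faRec_iff (p q : ℤ) (A : Matrix (Fin 2) (Fin 2) ℤ) :
    FARec p q A ↔ (lang p q (A 0 0) (A 0 1) (A 1 0) (A 1 1)).IsRegular := by
  have : lang p q (A 0 0) (A 0 1) (A 1 0) (A 1 1) = {s | ∃ u ∈ Dom p q, ∃ v ∈ Dom p q,
      psi p q v = A.mulVec (psi p q u) ∧ s = conv u v} := by
    unfold lang
    congr 1
    funext s
    refine propext (exists_congr fun u => and_congr_right fun _ => exists_congr fun v =>
      and_congr_right fun _ => and_congr_left fun _ => ?_)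
    rw [psi_eq, psi_eq, Prod.ext_iff, funext_iff, Fin.forall_fin_two]
    simp [Matrix.mulVec, dotProduct, Fin.sum_univ_two, app]
  rw [this]
  rfl

/-! ### Recursion for the convolution -/

lemma conv_nil_nil {α : Type} : conv ([] : List α) [] = [] := rfl

lemma conv_cons_cons {α : Type} (a b : α) (u v : List α) :
    conv (a :: u) (b :: v) = (some a, some b) :: conv u v := by
  have := conv_append (u := [a]) (v := [b]) rfl u v
  exact this.symm

lemma conv_cons_nil {α : Type} (a : α) (u : List α) :
    conv (a :: u) [] = (some a, none) :: conv u [] := by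
  simp [conv, List.range_succ_eq_map]

lemma conv_nil_cons {α : Type} (b : α) (v : List α) :
    conv [] (b :: v) = (none, some b) :: conv [] v := by
  simp [conv, List.range_succ_eq_map]

lemma conv_induction {α : Type} {P : List α → List α → Prop} (h0 : P [] [])
    (h1 : ∀ a u, P u [] → P (a :: u) []) (h2 : ∀ b v, P [] v → P [] (b :: v))
    (h3 : ∀ a b u v, P u v → P (a :: u) (b :: v)) (u v : List α) : P u v := by
  induction u generalizing v with
  | nil =>
    induction v with
    | nil => exact h0
    | cons b v ih => exact h2 b v ih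
  | cons a u ih =>
    cases v with
    | nil => exact h1 a u (ih [])
    | cons b v => exact h3 a b u v (ih v)

lemma conv_fst {α : Type} (u v : List α) : (conv u v).filterMap Prod.fst = u := by
  refine conv_induction (P := fun u v => (conv u v).filterMap Prod.fst = u) rfl ?_ ?_ ?_ u v
  · intro a u ih
    simp [conv_cons_nil, ih]
  · intro b v ih
    simpa [conv_nil_cons] using ih
  · intro a b u v ih
    simp [conv_cons_cons, ih]

lemma conv_snd {α : Type} (u v : List α) : (conv u v).filterMap Prod.snd = v := by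
  refine conv_induction (P := fun u v => (conv u v).filterMap Prod.snd = v) rfl ?_ ?_ ?_ u v
  · intro a u ih
    simpa [conv_cons_nil] using ih
  · intro b v ih
    simp [conv_nil_cons, ih]
  · intro a b u v ih
    simp [conv_cons_cons, ih]

/-- well-formed two-track strings -/
def WF {α : Type} (s : List (Option α × Option α)) : Prop :=
  (s.Pairwise fun a b => a.1 = none → b.1 = none) ∧
    (s.Pairwise fun a b => a.2 = none → b.2 = none) ∧ ∀ a ∈ s, a ≠ (none, none)

lemma mem_conv_nil {α : Type} (u : List α) : ∀ a ∈ conv u [], a.2 = none := by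
  intro a ha
  simp only [conv, List.mem_map] at ha
  obtain ⟨k, -, rfl⟩ := ha
  simp

lemma mem_nil_conv {α : Type} (v : List α) : ∀ a ∈ conv [] v, a.1 = none := by
  intro a ha
  simp only [conv, List.mem_map] at ha
  obtain ⟨k, -, rfl⟩ := ha
  simp

lemma wf_conv {α : Type} (u v : List α) : WF (conv u v) := by
  refine conv_induction (P := fun u v => WF (conv u v)) ?_ ?_ ?_ ?_ u v
  · simp [WF, conv_nil_nil]
  · rintro a u ⟨h1, h2, h3⟩
    rw [conv_cons_nil]
    refine ⟨List.pairwise_cons.2 ⟨by simp, h1⟩,
      List.pairwise_cons.2 ⟨fun b hb _ => mem_conv_nil u b hb, h2⟩, ?_⟩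
    intro b hb
    rcases List.mem_cons.1 hb with rfl | hb
    · simp
    · exact h3 b hb
  · rintro b v ⟨h1, h2, h3⟩
    rw [conv_nil_cons]
    refine ⟨List.pairwise_cons.2 ⟨fun b hb _ => mem_nil_conv v b hb, h1⟩,
      List.pairwise_cons.2 ⟨by simp, h2⟩, ?_⟩
    intro b hb
    rcases List.mem_cons.1 hb with rfl | hb
    · simp
    · exact h3 b hb
  · rintro a b u v ⟨h1, h2, h3⟩
    rw [conv_cons_cons]
    refine ⟨List.pairwise_cons.2 ⟨by simp, h1⟩, List.pairwise_cons.2 ⟨by simp, h2⟩, ?_⟩
    intro b hb
    rcases List.mem_cons.1 hb with rfl | hb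
    · simp
    · exact h3 b hb

lemma eq_conv_of_wf {α : Type} (s : List (Option α × Option α)) (h : WF s) :
    s = conv (s.filterMap Prod.fst) (s.filterMap Prod.snd) := by
  induction s with
  | nil => rfl
  | cons a s ih =>
    obtain ⟨h1, h2, h3⟩ := h
    rw [List.pairwise_cons] at h1 h2
    have ih' := ih ⟨h1.2, h2.2, fun b hb => h3 b (List.mem_cons_of_mem _ hb)⟩
    obtain ⟨a1, a2⟩ := a
    rcases a1 with _ | a1 <;> rcases a2 with _ | a2
    · exact absurd rfl (h3 _ List.mem_cons_self)
    · have e : s.filterMap Prod.fst = [] :=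
        List.filterMap_eq_nil_iff.2 fun b hb => h1.1 b hb rfl
      simp only [List.filterMap_cons]
      rw [e, conv_nil_cons, ← e, ← ih']
    · have e : s.filterMap Prod.snd = [] :=
        List.filterMap_eq_nil_iff.2 fun b hb => h2.1 b hb rfl
      simp only [List.filterMap_cons]
      rw [e, conv_cons_nil, ← e, ← ih']
    · simp only [List.filterMap_cons]
      rw [conv_cons_cons, ← ih']

lemma reg_wf {α : Type} :
    Language.IsRegular ({s | WF s} : Language (Option α × Option α)) :=
  reg_and (reg_pairwise fun a : Option α × Option α => a.1 = none)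
    (reg_and (reg_pairwise fun a : Option α × Option α => a.2 = none)
      (reg_forall fun a : Option α × Option α => a ≠ (none, none)))

/-! ### Multiplication by `α + β x` is recognizable -/

/-- the integer value of a padded digit -/
def dval {q : ℤ} : Option (Digit q) → ℤ
  | none => 0
  | some a => a.val

lemma evv_conv (p q α β : ℤ) (u v : List (Digit q)) :
    evv p q ((conv u v).map fun a => ((α * dval a.1 - dval a.2, β * dval a.1) : ℤ × ℤ))
      = app α (β * q) β (α - β * p) (evd p q u) - evd p q v := by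
  refine conv_induction (P := fun u v => evv p q ((conv u v).map fun a =>
    ((α * dval a.1 - dval a.2, β * dval a.1) : ℤ × ℤ))
      = app α (β * q) β (α - β * p) (evd p q u) - evd p q v) ?_ ?_ ?_ ?_ u v
  · simp [conv_nil_nil, evv, evd_nil, app, Prod.ext_iff]
  · intro a u ih
    rw [conv_cons_nil, List.map_cons, evv, ih, evd_cons, evd_nil]
    ext <;> simp [app, mx, dval] <;> ring
  · intro b v ih
    rw [conv_nil_cons, List.map_cons, evv, ih, evd_cons, evd_nil]
    ext <;> simp [app, mx, dval] <;> ring
  · intro a b u v ih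
    rw [conv_cons_cons, List.map_cons, evv, ih, evd_cons, evd_cons]
    ext <;> simp [app, mx, dval] <;> ring

theorem regular_of_mul {p q : ℤ} (h : 1 + |p| < |q|) (α β : ℤ) :
    (lang p q α (β * q) β (α - β * p)).IsRegular := by
  have h1 := reg_preimage (reg_dom h)
    (fun s : List (Option (Digit q) × Option (Digit q)) => s.filterMap Prod.fst)
    (fun x y => List.filterMap_append)
  have h2 := reg_preimage (reg_dom h)
    (fun s : List (Option (Digit q) × Option (Digit q)) => s.filterMap Prod.snd)
    (fun x y => List.filterMap_append)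
  have h3 := reg_zero h fun a : Option (Digit q) × Option (Digit q) =>
    ((α * dval a.1 - dval a.2, β * dval a.1) : ℤ × ℤ)
  refine reg_congr (fun s => ⟨?_, ?_⟩) (reg_and reg_wf (reg_and h1 (reg_and h2 h3)))
  · rintro ⟨hw, hu, hv, he⟩
    have e := eq_conv_of_wf s hw
    refine ⟨_, hu, _, hv, ?_, e⟩
    rw [e, evv_conv, sub_eq_zero] at he
    exact he.symm
  · rintro ⟨u, hu, v, hv, he, rfl⟩
    refine ⟨wf_conv u v, ?_, ?_, ?_⟩
    · show (conv u v).filterMap Prod.fst ∈ Dom p q
      rwa [conv_fst]
    · show (conv u v).filterMap Prod.snd ∈ Dom p q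
      rwa [conv_snd]
    · rw [evv_conv, he, sub_self]

/-! ### Nothing else is recognizable -/

lemma exists_good {p q : ℤ} (h : 1 + |p| < |q|) {a b c d : ℤ} (hdet : a * d - b * c ≠ 0) (k : ℕ) :
    ∃ u v : List (Digit q), u.length = k ∧ v.length = k ∧
      ¬ ∃ α β γ : ℤ, (α ≠ 0 ∨ β ≠ 0) ∧ ∀ u' v', conv (u ++ u') (v ++ v') ∈ lang p q a b c d →
        α * (evd p q (u ++ u')).1 + β * (evd p q (u ++ u')).2 = γ := by
  by_contra hcon
  push Not at hcon
  choose! α β γ hαβ hline using hcon
  have f1 : ((fun u => (evd p q u).1) '' {u : List (Digit q) | u.length < k}).Finite :=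
    (List.finite_length_lt _ k).image _
  have f2 : ((fun v => (d * (evd p q v).1 - b * (evd p q v).2) / (a * d - b * c)) ''
      {v : List (Digit q) | v.length < k}).Finite := (List.finite_length_lt _ k).image _
  have f3 : (⋃ u ∈ {u : List (Digit q) | u.length = k}, ⋃ v ∈ {v : List (Digit q) | v.length = k},
      {n : ℤ | α u v * n + β u v * n ^ 2 = γ u v}).Finite :=
    (List.finite_length_eq _ k).biUnion fun u hu => (List.finite_length_eq _ k).biUnion
      fun v hv => finite_line (hαβ u v hu hv)
  refine Set.infinite_univ (α := ℤ) (((f1.union f2).union f3).subset fun n _ => ?_)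
  obtain ⟨u, hu, eu⟩ := exists_dom h (n, n ^ 2)
  obtain ⟨v, hv, ev'⟩ := exists_dom h (app a b c d (n, n ^ 2))
  by_cases h1 : u.length < k
  · exact Or.inl (Or.inl ⟨u, h1, by simp [eu]⟩)
  by_cases h2 : v.length < k
  · refine Or.inl (Or.inr ⟨v, h2, ?_⟩)
    simp only [ev', app]
    rw [show d * (a * n + b * n ^ 2) - b * (c * n + d * n ^ 2) = n * (a * d - b * c) by ring,
      Int.mul_ediv_cancel _ hdet]
  refine Or.inr ?_
  have l1 : (u.take k).length = k := by simp; omega
  have l2 : (v.take k).length = k := by simp; omega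
  simp only [Set.mem_iUnion]
  refine ⟨u.take k, l1, v.take k, l2, ?_⟩
  have := hline _ _ l1 l2 (u.drop k) (v.drop k) (by
    rw [List.take_append_drop, List.take_append_drop]
    exact ⟨u, hu, v, hv, by rw [eu, ev'], rfl⟩)
  rw [List.take_append_drop, eu] at this
  exact this

theorem mul_of_regular {p q : ℤ} (h : 1 + |p| < |q|) (hpq : IsCoprime p q) {a b c d : ℤ}
    (hdet : a * d - b * c ≠ 0) (hreg : (lang p q a b c d).IsRegular) :
    b = c * q ∧ d = a - c * p := by
  by_contra hne
  have hfin := hreg.finite_range_leftQuotient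
  choose u v hu hv hgood using exists_good (p := p) h hdet
  obtain ⟨k, l, hkl, he⟩ := hfin.exists_lt_map_eq_of_forall_mem
    (f := fun k : ℕ => (lang p q a b c d).leftQuotient (conv (u k) (v k)))
    (fun k => Set.mem_range_self _)
  obtain ⟨j, rfl⟩ : ∃ j, l = (j + 1) + k := ⟨l - k - 1, by omega⟩
  obtain ⟨A, B, hN, -, hb⟩ := iter_form p q hpq j
  have hp0 := abs_nonneg p
  have hb0 : B ≠ 0 := by
    rintro rfl
    rw [isCoprime_zero_left, Int.isUnit_iff_abs_eq] at hb
    omega
  apply hgood k
  refine ⟨B * (a - p * c - d), B * (b - c * q),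
    c * (evd p q (u (j + 1 + k))).1 + d * (evd p q (u (j + 1 + k))).2
      - (evd p q (v (j + 1 + k))).2
      - c * (A * (evd p q (u k)).1 + B * q * (evd p q (u k)).2)
      - d * (B * (evd p q (u k)).1 + (A - p * B) * (evd p q (u k)).2)
      + (B * (evd p q (v k)).1 + (A - p * B) * (evd p q (v k)).2), ?_, fun u' v' hm => ?_⟩
  · by_contra hc
    push Not at hc
    apply hne
    have e1 := (mul_eq_zero.1 hc.1).resolve_left hb0
    have e2 := (mul_eq_zero.1 hc.2).resolve_left hb0
    constructor <;> linarith
  have hm2 : conv (u (j + 1 + k) ++ u') (v (j + 1 + k) ++ v') ∈ lang p q a b c d := by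
    rw [← conv_append ((hu _).trans (hv _).symm), ← Language.mem_leftQuotient]
    rw [← conv_append ((hu _).trans (hv _).symm), ← Language.mem_leftQuotient] at hm
    rwa [← he]
  obtain ⟨u1, -, v1, -, e1, c1⟩ := hm
  obtain ⟨u2, -, v2, -, e2, c2⟩ := hm2
  obtain ⟨rfl, rfl⟩ := conv_inj c1
  obtain ⟨rfl, rfl⟩ := conv_inj c2
  simp only [evd_append, hu, hv, Function.iterate_add_apply _ (j + 1) k, hN, app] at e1 e2 ⊢
  set s := (mx p q)^[k] (evd p q u')
  set r := (mx p q)^[k] (evd p q v')
  have e11 := congrArg Prod.fst e1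
  have e12 := congrArg Prod.snd e1
  have e22 := congrArg Prod.snd e2
  simp only [Prod.fst_add, Prod.snd_add] at e11 e12 e22 ⊢
  linear_combination e22 - B * e11 - (A - p * B) * e12

/-- For a matrix of nonzero determinant: recognizable exactly when it is multiplication by an
element `α + β x` of the quotient ring. -/
theorem faRec_iff_mul {p q : ℤ} (h : 1 + |p| < |q|) (hpq : IsCoprime p q)
    (A : Matrix (Fin 2) (Fin 2) ℤ) (hA : A.det ≠ 0) :
    FARec p q A ↔ A 0 1 = A 1 0 * q ∧ A 1 1 = A 0 0 - A 1 0 * p := by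
  rw [faRec_iff]
  constructor
  · exact mul_of_regular h hpq (by rwa [Matrix.det_fin_two] at hA)
  · rintro ⟨e1, e2⟩
    rw [e1, e2]
    exact regular_of_mul h _ _

end Pool.Agent.MP_334179_al.NS
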