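import Mathlib

/-!
Closure properties of regular languages, all through the Myhill-Nerode theorem.
-/

namespace Pool.Agent.MP_334179_al.NS

open Language

/-- A language is regular as soon as membership of `x ++ z` depends on `x` only through a summary
with finitely many values. -/
lemma reg_of_summary {α S : Type} (L : Language α) (σ : List α → S) (hfin : (Set.range σ).Finite)
    (h : ∀ x y, σ x = σ y → ∀ z, x ++ z ∈ L → y ++ z ∈ L) : L.IsRegular := by
  classical
  apply Language.IsRegular.of_finite_range_leftQuotient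
  have hne : Nonempty (List α) := ⟨[]⟩
  refine (hfin.image (fun s => L.leftQuotient (Function.invFun σ s))).subset ?_
  rintro _ ⟨x, rfl⟩
  refine ⟨σ x, ⟨x, rfl⟩, ?_⟩
  have e : σ (Function.invFun σ (σ x)) = σ x := Function.invFun_eq ⟨x, rfl⟩
  ext z
  simp only [Language.mem_leftQuotient]
  exact ⟨h _ _ e z, h _ _ e.symm z⟩

/-- Preimage under a map that respects concatenation. -/
lemma reg_preimage {α γ : Type} {L : Language α} (hL : L.IsRegular) (f : List γ → List α)
    (hf : ∀ x y, f (x ++ y) = f x ++ f y) :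
    Language.IsRegular ({s | f s ∈ L} : Language γ) := by
  refine reg_of_summary _ (fun x => L.leftQuotient (f x))
    (hL.finite_range_leftQuotient.subset ?_) ?_
  · rintro _ ⟨x, rfl⟩
    exact ⟨f x, rfl⟩
  · intro x y hxy z hz
    have hz' : f (x ++ z) ∈ L := hz
    show f (y ++ z) ∈ L
    rw [hf, ← Language.mem_leftQuotient] at hz' ⊢
    have hxy' : L.leftQuotient (f x) = L.leftQuotient (f y) := hxy
    rwa [← hxy']

/-- Image under a letter-to-letter map. -/
lemma reg_image {α γ : Type} {L : Language γ} (hL : L.IsRegular) (f : γ → α) :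
    Language.IsRegular ({w | ∃ s ∈ L, s.map f = w} : Language α) := by
  refine reg_of_summary _ (fun x => {Q | ∃ s : List γ, s.map f = x ∧ L.leftQuotient s = Q})
    (hL.finite_range_leftQuotient.finite_subsets.subset ?_) ?_
  · rintro _ ⟨x, rfl⟩ Q ⟨s, -, rfl⟩
    exact ⟨s, rfl⟩
  · rintro x y hxy z ⟨s, hs, e⟩
    obtain ⟨s0, s1, rfl, e0, e1⟩ := List.map_eq_append_iff.1 e
    have h1 : L.leftQuotient s0 ∈ {Q | ∃ s : List γ, s.map f = x ∧ L.leftQuotient s = Q} :=
      ⟨s0, e0, rfl⟩
    have hxy' : {Q | ∃ s : List γ, s.map f = x ∧ L.leftQuotient s = Q}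
        = {Q | ∃ s : List γ, s.map f = y ∧ L.leftQuotient s = Q} := hxy
    rw [hxy'] at h1
    obtain ⟨s0', e0', hq⟩ := h1
    refine ⟨s0' ++ s1, ?_, by rw [List.map_append, e0', e1]⟩
    rw [← Language.mem_leftQuotient, hq, Language.mem_leftQuotient]
    exact hs

lemma reg_and {α : Type} {P Q : List α → Prop} (hP : Language.IsRegular ({s | P s} : Language α))
    (hQ : Language.IsRegular ({s | Q s} : Language α)) :
    Language.IsRegular ({s | P s ∧ Q s} : Language α) := hP.inf hQ

lemma reg_or {α : Type} {P Q : List α → Prop} (hP : Language.IsRegular ({s | P s} : Language α))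
    (hQ : Language.IsRegular ({s | Q s} : Language α)) :
    Language.IsRegular ({s | P s ∨ Q s} : Language α) := hP.add hQ

lemma reg_not {α : Type} {P : List α → Prop} (hP : Language.IsRegular ({s | P s} : Language α)) :
    Language.IsRegular ({s | ¬ P s} : Language α) := hP.compl

lemma reg_congr {α : Type} {P Q : List α → Prop} (h : ∀ s, P s ↔ Q s)
    (hP : Language.IsRegular ({s | P s} : Language α)) :
    Language.IsRegular ({s | Q s} : Language α) := by
  have : P = Q := funext fun s => propext (h s)
  rwa [← this]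

/-- All letters have a given property. -/
lemma reg_forall {α : Type} (P : α → Prop) :
    Language.IsRegular ({s | ∀ a ∈ s, P a} : Language α) := by
  refine reg_of_summary _ (fun x => ∀ a ∈ x, P a) (Set.toFinite _) ?_
  intro x y hxy z hz
  have hz' : ∀ a ∈ x ++ z, P a := hz
  show ∀ a ∈ y ++ z, P a
  have hxy' : (∀ a ∈ x, P a) = ∀ a ∈ y, P a := hxy
  intro a ha
  rcases List.mem_append.1 ha with ha | ha
  · exact (hxy' ▸ fun b hb => hz' b (List.mem_append_left _ hb)) a ha
  · exact hz' a (List.mem_append_right _ ha)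

/-- After a letter with the property only letters with the property follow. -/
lemma reg_pairwise {α : Type} (P : α → Prop) :
    Language.IsRegular ({s | s.Pairwise fun a b => P a → P b} : Language α) := by
  refine reg_of_summary _ (fun x => (x.Pairwise fun a b => P a → P b, ∃ a ∈ x, P a))
    (Set.toFinite _) ?_
  intro x y hxy z hz
  have hz' : (x ++ z).Pairwise fun a b => P a → P b := hz
  show (y ++ z).Pairwise fun a b => P a → P b
  have h1 : (x.Pairwise fun a b => P a → P b) = y.Pairwise fun a b => P a → P b :=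
    congrArg Prod.fst hxy
  have h2 : (∃ a ∈ x, P a) = ∃ a ∈ y, P a := congrArg Prod.snd hxy
  rw [List.pairwise_append] at hz' ⊢
  refine ⟨h1 ▸ hz'.1, hz'.2.1, fun a ha b hb hPa => ?_⟩
  obtain ⟨a', ha', hPa'⟩ : ∃ a ∈ x, P a := h2 ▸ ⟨a, ha, hPa⟩
  exact hz'.2.2 a' ha' b hb hPa'

/-- The last letter exists and has a given property. -/
lemma reg_last {α : Type} (P : α → Prop) :
    Language.IsRegular ({s | ∃ s' a, s = s' ++ [a] ∧ P a} : Language α) := by
  refine reg_of_summary _ (fun x => ∃ s' a, x = s' ++ [a] ∧ P a) (Set.toFinite _) ?_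
  rintro x y hxy z ⟨s', a, e, ha⟩
  have hxy' : (∃ s' a, x = s' ++ [a] ∧ P a) = ∃ s' a, y = s' ++ [a] ∧ P a := hxy
  rcases List.eq_nil_or_concat z with rfl | ⟨z', b, rfl⟩
  · rw [List.append_nil] at e ⊢
    show ∃ s' a, y = s' ++ [a] ∧ P a
    rw [← hxy']
    exact ⟨s', a, e, ha⟩
  · rw [List.concat_eq_append, ← List.append_assoc] at e ⊢
    obtain ⟨-, e2⟩ := List.append_inj' e rfl
    obtain rfl : b = a := by simpa using e2
    exact ⟨y ++ z', b, rfl, ha⟩

lemma lex_append {D : Type} (r : D → D → Prop) (x z : List (D × D)) :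
    List.Lex r ((x ++ z).map Prod.snd) ((x ++ z).map Prod.fst) ↔
      List.Lex r (x.map Prod.snd) (x.map Prod.fst) ∨
        (x.map Prod.snd = x.map Prod.fst ∧ List.Lex r (z.map Prod.snd) (z.map Prod.fst)) := by
  induction x with
  | nil => simp
  | cons a x ih =>
    simp only [List.cons_append, List.map_cons, List.cons_lex_cons_iff, ih, List.cons.injEq]
    tauto

/-- The lexicographic comparison of the two tracks. -/
lemma reg_lex {D : Type} (r : D → D → Prop) :
    Language.IsRegular
      ({s | List.Lex r (s.map Prod.snd) (s.map Prod.fst)} : Language (D × D)) := by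
  refine reg_of_summary _ (fun x => (List.Lex r (x.map Prod.snd) (x.map Prod.fst),
    x.map Prod.snd = x.map Prod.fst)) (Set.toFinite _) ?_
  intro x y hxy z hz
  have hz' : List.Lex r ((x ++ z).map Prod.snd) ((x ++ z).map Prod.fst) := hz
  show List.Lex r ((y ++ z).map Prod.snd) ((y ++ z).map Prod.fst)
  have h1 : List.Lex r (x.map Prod.snd) (x.map Prod.fst)
      = List.Lex r (y.map Prod.snd) (y.map Prod.fst) := congrArg Prod.fst hxy
  have h2 : (x.map Prod.snd = x.map Prod.fst) = (y.map Prod.snd = y.map Prod.fst) :=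
    congrArg Prod.snd hxy
  rw [lex_append] at hz' ⊢
  rwa [← h1, ← h2]

end Pool.Agent.MP_334179_al.NS
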