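import Pool.Agent.MP_334179_al.NS.Basic
import Pool.Agent.MP_334179_al.NS.Reg

/-!
The positive direction: the domain is regular and multiplication by an element of the quotient ring
is recognizable (bounded carries).
-/

namespace Pool.Agent.MP_334179_al.NS

open Polynomial

/-- value of a list of lattice points -/
def evv (p q : ℤ) : List (ℤ × ℤ) → ℤ × ℤ
  | [] => 0
  | d :: w => d + mx p q (evv p q w)

lemma evv_append (p q : ℤ) (u w : List (ℤ × ℤ)) :
    evv p q (u ++ w) = evv p q u + (mx p q)^[u.length] (evv p q w) := by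
  induction u with
  | nil => simp [evv]
  | cons a u ih =>
    simp only [List.cons_append, evv, ih, mx_add, List.length_cons, Function.iterate_succ_apply']
    rw [add_assoc]

lemma carry_step {p q D : ℤ} (h : 1 + |p| < |q|) (hD : 0 ≤ D) {e d c : ℤ × ℤ}
    (he1 : |e.1| ≤ (|p| + 1) * (2 * D) + D) (he2 : |e.2| ≤ 2 * D) (hd1 : |d.1| ≤ D)
    (hd2 : |d.2| ≤ D) (hc : e + d + mx p q c = 0) :
    |c.1| ≤ (|p| + 1) * (2 * D) + D ∧ |c.2| ≤ 2 * D := by
  have h1 := congrArg Prod.fst hc
  have h2 := congrArg Prod.snd hc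
  simp only [mx, Prod.fst_add, Prod.snd_add, Prod.fst_zero, Prod.snd_zero] at h1 h2
  have hp := abs_nonneg p
  have k1 : |q| * |c.2| ≤ |q| * (2 * D) := by
    rw [← abs_mul, show q * c.2 = -(e.1 + d.1) by linarith, abs_neg]
    have := abs_add_le e.1 d.1
    nlinarith
  have k2 : |c.2| ≤ 2 * D := le_of_mul_le_mul_left k1 (by linarith)
  refine ⟨?_, k2⟩
  rw [show c.1 = p * c.2 - (e.2 + d.2) by linarith]
  have t1 := abs_sub (p * c.2) (e.2 + d.2)
  have t2 := abs_add_le e.2 d.2
  rw [abs_mul] at t1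
  have t3 : |p| * |c.2| ≤ |p| * (2 * D) := mul_le_mul_of_nonneg_left k2 hp
  linarith

lemma carry_bound {p q D : ℤ} (h : 1 + |p| < |q|) (hD : 0 ≤ D) (u : List (ℤ × ℤ))
    (hu : ∀ d ∈ u, |d.1| ≤ D ∧ |d.2| ≤ D) (e c : ℤ × ℤ)
    (he1 : |e.1| ≤ (|p| + 1) * (2 * D) + D) (he2 : |e.2| ≤ 2 * D)
    (hc : e + evv p q u + (mx p q)^[u.length] c = 0) :
    |c.1| ≤ (|p| + 1) * (2 * D) + D ∧ |c.2| ≤ 2 * D := by
  induction u generalizing e with
  | nil =>
    simp only [evv, add_zero, List.length_nil, Function.iterate_zero, id] at hc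
    obtain rfl : c = -e := by linear_combination hc
    simpa using ⟨he1, he2⟩
  | cons d u ih =>
    simp only [evv, List.length_cons, Function.iterate_succ_apply'] at hc
    have hd := hu d (by simp)
    have key := carry_step h hD (c := evv p q u + (mx p q)^[u.length] c) he1 he2 hd.1 hd.2
      (by rw [mx_add]; linear_combination hc)
    refine ih (fun d hd => hu d (by simp [hd])) (-(evv p q u + (mx p q)^[u.length] c)) ?_ ?_
      (by ring)
    · rw [Prod.fst_neg, abs_neg]; exact key.1
    · rw [Prod.snd_neg, abs_neg]; exact key.2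

/-- The strings over a finite alphabet of lattice digits with value zero form a regular language. -/
lemma reg_zero {p q : ℤ} (h : 1 + |p| < |q|) {α : Type} [Finite α] (δ : α → ℤ × ℤ) :
    Language.IsRegular ({s | evv p q (s.map δ) = 0} : Language α) := by
  obtain ⟨D, hD⟩ : ∃ D : ℤ, 0 ≤ D ∧ ∀ a, |(δ a).1| ≤ D ∧ |(δ a).2| ≤ D := by
    obtain ⟨D, hD⟩ := (Set.finite_range fun a => |(δ a).1| + |(δ a).2|).bddAbove
    refine ⟨max D 0, le_max_right _ _, fun a => ?_⟩
    have := hD ⟨a, rfl⟩
    have h1 := abs_nonneg (δ a).1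
    have h2 := abs_nonneg (δ a).2
    have h3 := le_max_left D 0
    constructor <;> linarith
  have hp := abs_nonneg p
  have hbox : {c : ℤ × ℤ | |c.1| ≤ (|p| + 1) * (2 * D) + D ∧ |c.2| ≤ 2 * D}.Finite := by
    refine ((Set.finite_Icc (-((|p| + 1) * (2 * D) + D)) ((|p| + 1) * (2 * D) + D)).prod
      (Set.finite_Icc (-(2 * D)) (2 * D))).subset fun c hc => ?_
    exact ⟨abs_le.1 hc.1, abs_le.1 hc.2⟩
  refine reg_of_summary _
    (fun x => {c : ℤ × ℤ | evv p q (x.map δ) + (mx p q)^[(x.map δ).length] c = 0})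
    (hbox.finite_subsets.subset ?_) ?_
  · rintro _ ⟨x, rfl⟩ c hc
    refine carry_bound h hD.1 (x.map δ) ?_ 0 c ?_ ?_ (by rw [zero_add]; exact hc)
    · intro d hd
      obtain ⟨a, -, rfl⟩ := List.mem_map.1 hd
      exact hD.2 a
    · have := hD.1
      simp only [Prod.fst_zero, abs_zero]
      positivity
    · have := hD.1
      simp only [Prod.snd_zero, abs_zero]
      positivity
  · intro x y hxy z hz
    have hz' : evv p q ((x ++ z).map δ) = 0 := hz
    show evv p q ((y ++ z).map δ) = 0
    rw [List.map_append, evv_append] at hz' ⊢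
    have hxy' : {c : ℤ × ℤ | evv p q (x.map δ) + (mx p q)^[(x.map δ).length] c = 0}
        = {c : ℤ × ℤ | evv p q (y.map δ) + (mx p q)^[(y.map δ).length] c = 0} := hxy
    have h1 : evv p q (z.map δ) ∈
        {c : ℤ × ℤ | evv p q (x.map δ) + (mx p q)^[(x.map δ).length] c = 0} := hz'
    rw [hxy'] at h1
    exact h1

lemma mx_zero (p q : ℤ) : mx p q 0 = 0 := by simp [mx]

lemma mx_sub (p q : ℤ) (c d : ℤ × ℤ) : mx p q (c - d) = mx p q c - mx p q d := by
  simp only [mx, Prod.fst_sub, Prod.snd_sub, Prod.mk_sub_mk, Prod.mk.injEq]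
  constructor <;> ring

lemma evd_nil (p q : ℤ) : evd p q [] = 0 := rfl

lemma evd_cons (p q : ℤ) (a : Digit q) (w : List (Digit q)) :
    evd p q (a :: w) = (a.val, 0) + mx p q (evd p q w) := rfl

lemma dvd_iff_evd (p q : ℤ) (u w : List (Digit q)) :
    tpoly p q ∣ poly u - poly w ↔ evd p q u = evd p q w := by
  constructor
  · intro hu
    have e : psi p q u = psi p q w := by
      funext i
      unfold psi
      rw [modByMonic_eq_of_dvd_sub (tpoly_monic p q) hu]
    rw [psi_eq, psi_eq] at e
    have e0 := congrFun e 0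
    have e1 := congrFun e 1
    simp only [Matrix.cons_val_zero, Matrix.cons_val_one] at e0 e1
    exact Prod.ext e0 e1
  · intro e
    have h1 := dvd_poly_sub p q u
    have h2 := dvd_poly_sub p q w
    rw [e] at h1
    have := dvd_sub h1 h2
    rwa [sub_sub_sub_cancel_right] at this

lemma evv_pair (p q : ℤ) (s : List (Digit q × Digit q)) :
    evv p q (s.map fun a => ((a.2.val - a.1.val, 0) : ℤ × ℤ))
      = evd p q (s.map Prod.snd) - evd p q (s.map Prod.fst) := by
  induction s with
  | nil => simp [evv, evd_nil]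
  | cons a s ih =>
    simp only [List.map_cons, evv, ih, evd_cons, mx_sub]
    ext <;> simp <;> ring

lemma iter_zero (p q : ℤ) (k : ℕ) : (mx p q)^[k] 0 = 0 :=
  Function.iterate_fixed (mx_zero p q) k

lemma evd_replicate (p q : ℤ) (z : Digit q) (hz : z.val = 0) (n : ℕ) :
    evd p q (List.replicate n z) = 0 := by
  induction n with
  | zero => rfl
  | succ n ih => rw [List.replicate_succ, evd_cons, ih, mx_zero, hz]; simp

/-- The domain of the presentation is regular. -/
lemma reg_dom {p q : ℤ} (h : 1 + |p| < |q|) :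
    Language.IsRegular ({w | w ∈ Dom p q} : Language (Digit q)) := by
  have hp := abs_nonneg p
  let z : Digit q := ⟨0, by rw [Finset.mem_Icc]; constructor <;> linarith⟩
  have hL := reg_and (reg_zero h fun a : Digit q × Digit q => ((a.2.val - a.1.val, 0) : ℤ × ℤ))
    (reg_or (reg_last fun a : Digit q × Digit q => a.2.val = 0)
      (reg_lex (fun a b : Digit q => a < b)))
  refine reg_congr (fun w => ?_) (reg_not (reg_image hL Prod.fst))
  refine not_congr ⟨?_, ?_⟩
  · rintro ⟨s, ⟨h0, h1⟩, rfl⟩
    rw [evv_pair, sub_eq_zero] at h0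
    rcases h1 with ⟨s', a, rfl, ha⟩ | h1
    · refine ⟨s'.map Prod.snd, List.Shortlex.of_length_lt (by simp), ?_⟩
      rw [dvd_iff_evd, ← h0, List.map_append, evd_append]
      have : evd p q (List.map Prod.snd [a]) = 0 := by
        simpa using evd_replicate p q a.2 ha 1
      rw [this, iter_zero, add_zero]
    · exact ⟨s.map Prod.snd, List.Shortlex.of_lex (by simp) h1, (dvd_iff_evd _ _ _ _).2 h0⟩
  · rintro ⟨u, h1, h2⟩
    rw [dvd_iff_evd] at h2
    rcases List.shortlex_def.1 h1 with h1 | ⟨h1, h3⟩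
    · obtain ⟨n, hn⟩ : ∃ n, w.length = u.length + (n + 1) := ⟨w.length - u.length - 1, by omega⟩
      have hl : w.length = (u ++ List.replicate (n + 1) z).length := by simp [hn]
      have e1 : (w.zip (u ++ List.replicate (n + 1) z)).map Prod.fst = w :=
        List.map_fst_zip hl.le
      have e2 : (w.zip (u ++ List.replicate (n + 1) z)).map Prod.snd
          = u ++ List.replicate (n + 1) z := List.map_snd_zip hl.ge
      refine ⟨w.zip (u ++ List.replicate (n + 1) z), ⟨?_, Or.inl ?_⟩, e1⟩
      · rw [evv_pair, e1, e2, evd_append, evd_replicate p q z rfl, iter_zero, add_zero, h2,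
          sub_self]
      · rcases List.eq_nil_or_concat (w.zip (u ++ List.replicate (n + 1) z)) with h0 | ⟨s', a, h0⟩
        · rw [h0] at e2
          simp [List.replicate_succ] at e2
        · rw [List.concat_eq_append] at h0
          refine ⟨s', a, h0, ?_⟩
          rw [h0, List.map_append, List.replicate_succ', ← List.append_assoc] at e2
          obtain ⟨-, e3⟩ := List.append_inj' e2 rfl
          have : a.2 = z := by simpa using e3
          rw [this]
    · have e1 : (w.zip u).map Prod.fst = w := List.map_fst_zip h1.ge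
      have e2 : (w.zip u).map Prod.snd = u := List.map_snd_zip h1.le
      refine ⟨w.zip u, ⟨?_, Or.inr ?_⟩, e1⟩
      · rw [evv_pair, e1, e2, h2, sub_self]
      · rw [e1, e2]
        exact h3

end Pool.Agent.MP_334179_al.NS
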